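import Pool.Agent.Helper16.NR.Stmts

set_option autoImplicit false

/-! # Module RES -/

namespace Pool.Helper16.NR

theorem res_5 : ∀ r : ZMod 5, r ≠ 0 → ∃ a b : ZMod 5, R5 a b r := by
  unfold R5 fp
  decide

theorem res_11 : ∀ r : ZMod 11, r ≠ 0 → ∃ a b : ZMod 11, R11 a b r := by
  unfold R11 fp
  decide

theorem st_RES : ST_RES := ⟨res_5, res_11⟩

end Pool.Helper16.NR
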